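import Mathlib

/-!
# A loop of order 128: the computations

The operations of the loop of `MP_0d4ca0_al/NotAAIP.lean`, coded on natural numbers below 128, and
the finite checks which the proof needs.
-/

set_option autoImplicit false

namespace Pool.Agent.H24.LoopT

/-! ### The operations, coded on natural numbers below 128 -/

/-- `f n`, in a form which makes the kernel evaluate `n` first. -/
noncomputable def fz {α : Type} (n : Nat) (f : Nat → α) : α :=
  Nat.rec (f 0) (fun k _ => f (Nat.succ k)) n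

theorem fz_eq {α : Type} (n : Nat) (f : Nat → α) : fz n f = f n := by
  cases n <;> rfl

/-- The table of the example: 16 entries of 13 bits. -/
def tab : Nat := 0x8349800c48000c0402051840006060c6b4a14000b00200140000

/-- Parity of a 4-bit number. -/
def par (m : Nat) : Nat := Nat.land (Nat.shiftRight 0x6996 m) 1

/-- Entry of the table for the pair of cosets `s, t`. -/
def wd (s t : Nat) : Nat :=
  Nat.land (Nat.shiftRight tab (Nat.mul 13 (Nat.add (Nat.mul 4 s) t))) 0x1fff

/-- The linear term. -/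
def lin (x y w : Nat) : Nat :=
  par (Nat.xor (Nat.land (Nat.land x (Nat.shiftRight w 5)) 15) (Nat.land y (Nat.shiftRight w 9)))

noncomputable def mulN (x y : Nat) : Nat :=
  fz x fun x => fz y fun y => fz (wd (Nat.shiftRight x 5) (Nat.shiftRight y 5)) fun w =>
    Nat.xor (Nat.xor (Nat.xor (Nat.xor x y) (Nat.shiftLeft (Nat.land (Nat.land x y) 8) 1))
      (Nat.land w 31)) (Nat.shiftLeft (lin x y w) 4)

noncomputable def ldN (x r : Nat) : Nat :=
  fz x fun x => fz r fun r =>
    fz (wd (Nat.shiftRight x 5) (Nat.shiftRight (Nat.xor x r) 5)) fun w =>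
    fz (Nat.xor (Nat.xor x r) (Nat.land w 31)) fun b =>
      Nat.xor b (Nat.shiftLeft (Nat.xor (Nat.land (Nat.shiftRight (Nat.land x b) 3) 1)
        (lin x b w)) 4)

noncomputable def rdN (r y : Nat) : Nat :=
  fz r fun r => fz y fun y =>
    fz (wd (Nat.shiftRight (Nat.xor y r) 5) (Nat.shiftRight y 5)) fun w =>
    fz (Nat.xor (Nat.xor y r) (Nat.land w 31)) fun a =>
      Nat.xor a (Nat.shiftLeft (Nat.xor (Nat.land (Nat.shiftRight (Nat.land y a) 3) 1)
        (lin a y w)) 4)

noncomputable def opN : Nat → Nat → Nat → Nat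
  | 0 => mulN
  | 1 => ldN
  | _ => rdN

def encN (s a : Nat) : Nat := Nat.add (Nat.mul s 32) a

def adN (a b : Nat) : Nat :=
  Nat.xor (Nat.xor a b) (Nat.shiftLeft (Nat.land (Nat.land a b) 8) 1)

def ngN (a : Nat) : Nat := Nat.xor a (Nat.shiftLeft (Nat.land a 8) 1)

def xs (s t : Fin 4) : Fin 4 := Fin.ofNat 4 (Nat.xor s.val t.val)

def ad (a b : Fin 32) : Fin 32 := Fin.ofNat 32 (adN a.val b.val)

def ng (a : Fin 32) : Fin 32 := Fin.ofNat 32 (ngN a.val)

noncomputable def opA (k : Nat) (s t : Fin 4) (a b : Fin 32) : Fin 32 :=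
  Fin.ofNat 32 (opN k (encN s.val a.val) (encN t.val b.val))

theorem ad_assoc' : ∀ a b c : Fin 32, ad (ad a b) c = ad a (ad b c) := by decide +kernel
theorem ad_comm' : ∀ a b : Fin 32, ad a b = ad b a := by decide +kernel
theorem zero_ad' : ∀ a : Fin 32, ad 0 a = a := by decide +kernel
theorem ng_ad' : ∀ a : Fin 32, ad (ng a) a = 0 := by decide +kernel

theorem aff0 : ∀ s t : Fin 4, ∀ a b : Fin 32,
    opA 0 s t a b = ad (ad (opA 0 s t a 0) (opA 0 s t 0 b)) (ng (opA 0 s t 0 0)) := by
  decide +kernel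
theorem aff1 : ∀ s t : Fin 4, ∀ a b : Fin 32,
    opA 1 s t a b = ad (ad (opA 1 s t a 0) (opA 1 s t 0 b)) (ng (opA 1 s t 0 0)) := by
  decide +kernel
theorem aff2 : ∀ s t : Fin 4, ∀ a b : Fin 32,
    opA 2 s t a b = ad (ad (opA 2 s t a 0) (opA 2 s t 0 b)) (ng (opA 2 s t 0 0)) := by
  decide +kernel

theorem homL0 : ∀ s t : Fin 4, ∀ a b : Fin 32,
    opA 0 s t (ad a b) 0 = ad (ad (opA 0 s t a 0) (opA 0 s t b 0)) (ng (opA 0 s t 0 0)) := by
  decide +kernel
theorem homL1 : ∀ s t : Fin 4, ∀ a b : Fin 32,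
    opA 1 s t (ad a b) 0 = ad (ad (opA 1 s t a 0) (opA 1 s t b 0)) (ng (opA 1 s t 0 0)) := by
  decide +kernel
theorem homL2 : ∀ s t : Fin 4, ∀ a b : Fin 32,
    opA 2 s t (ad a b) 0 = ad (ad (opA 2 s t a 0) (opA 2 s t b 0)) (ng (opA 2 s t 0 0)) := by
  decide +kernel

theorem homR0 : ∀ s t : Fin 4, ∀ a b : Fin 32,
    opA 0 s t 0 (ad a b) = ad (ad (opA 0 s t 0 a) (opA 0 s t 0 b)) (ng (opA 0 s t 0 0)) := by
  decide +kernel
theorem homR1 : ∀ s t : Fin 4, ∀ a b : Fin 32,
    opA 1 s t 0 (ad a b) = ad (ad (opA 1 s t 0 a) (opA 1 s t 0 b)) (ng (opA 1 s t 0 0)) := by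
  decide +kernel
theorem homR2 : ∀ s t : Fin 4, ∀ a b : Fin 32,
    opA 2 s t 0 (ad a b) = ad (ad (opA 2 s t 0 a) (opA 2 s t 0 b)) (ng (opA 2 s t 0 0)) := by
  decide +kernel

theorem enc0 : ∀ s t : Fin 4, ∀ a b : Fin 32,
    opN 0 (encN s.val a.val) (encN t.val b.val) = encN (xs s t).val (opA 0 s t a b).val := by
  decide +kernel
theorem enc1 : ∀ s t : Fin 4, ∀ a b : Fin 32,
    opN 1 (encN s.val a.val) (encN t.val b.val) = encN (xs s t).val (opA 1 s t a b).val := by
  decide +kernel
theorem enc2 : ∀ s t : Fin 4, ∀ a b : Fin 32,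
    opN 2 (encN s.val a.val) (encN t.val b.val) = encN (xs s t).val (opA 2 s t a b).val := by
  decide +kernel

theorem loop1 : ∀ s : Fin 4, ∀ a : Fin 32,
    xs 0 s = s ∧ opA 0 0 s 0 a = a ∧ xs s 0 = s ∧ opA 0 s 0 a 0 = a := by
  decide +kernel
theorem xs_xs : ∀ s t : Fin 4, xs s (xs s t) = t ∧ xs (xs s t) t = s := by
  decide +kernel
theorem loop2 : ∀ s t : Fin 4, ∀ a b : Fin 32,
    opA 0 s (xs s t) a (opA 1 s t a b) = b ∧ opA 1 s (xs s t) a (opA 0 s t a b) = b := by
  decide +kernel
theorem loop3 : ∀ s t : Fin 4, ∀ a b : Fin 32,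
    opA 0 (xs s t) t (opA 2 s t a b) b = a ∧ opA 2 (xs s t) t (opA 0 s t a b) b = a := by
  decide +kernel

/-! ### The main computation -/

noncomputable def oN (a b u v : Nat) : Nat := mulN (rdN u b) (ldN a v)

noncomputable def thN (a b c1 c2 u : Nat) : Nat := mulN a (ldN c1 (mulN (rdN u b) c2))

noncomputable def TN (a b x y z : Nat) : Bool :=
  fz (rdN x b) fun c1 => fz (ldN a x) fun c2 =>
    Nat.beq (thN a b c1 c2 (oN a b y z)) (oN a b (thN a b c1 c2 y) (thN a b c1 c2 z))

noncomputable def allB (n : Nat) (p : Nat → Bool) : Bool :=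
  Nat.rec true (fun k ih => and (p k) ih) n

theorem allB_spec {n : Nat} {p : Nat → Bool} (h : allB n p = true) : ∀ k < n, p k = true := by
  induction n with
  | zero => intro k hk; exact absurd hk (Nat.not_lt_zero k)
  | succ n ih =>
    have h' : (p n && allB n p) = true := h
    rw [Bool.and_eq_true] at h'
    intro k hk
    rcases Nat.lt_succ_iff_lt_or_eq.1 hk with h2 | h2
    · exact ih h'.2 k h2
    · rw [h2]; exact h'.1

/-- The argument number `i` in the test number `e` : zero or a generator. -/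
def ev (e i : Nat) : Nat :=
  Nat.land (Nat.shiftRight (Nat.mul (Nat.shiftLeft 1 (Nat.add (Nat.mul 5 (Nat.div e 4))
    (Nat.mod e 4))) (if Nat.beq e 20 then 0 else 1)) (Nat.mul 5 i)) 31

noncomputable def chk (sa sb : Nat) : Bool :=
  allB 21 fun e => allB 4 fun sx => allB 4 fun sy => allB 4 fun sz =>
    fz (encN sa (ev e 0)) fun a => fz (encN sb (ev e 1)) fun b => fz (encN sx (ev e 2)) fun x =>
      fz (encN sy (ev e 3)) fun y => fz (encN sz (ev e 4)) fun z => TN a b x y z

theorem chk00 : chk 0 0 = true := by decide +kernel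
theorem chk01 : chk 0 1 = true := by decide +kernel
theorem chk02 : chk 0 2 = true := by decide +kernel
theorem chk03 : chk 0 3 = true := by decide +kernel
theorem chk10 : chk 1 0 = true := by decide +kernel
theorem chk11 : chk 1 1 = true := by decide +kernel
theorem chk12 : chk 1 2 = true := by decide +kernel
theorem chk13 : chk 1 3 = true := by decide +kernel
theorem chk20 : chk 2 0 = true := by decide +kernel
theorem chk21 : chk 2 1 = true := by decide +kernel
theorem chk22 : chk 2 2 = true := by decide +kernel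
theorem chk23 : chk 2 3 = true := by decide +kernel
theorem chk30 : chk 3 0 = true := by decide +kernel
theorem chk31 : chk 3 1 = true := by decide +kernel
theorem chk32 : chk 3 2 = true := by decide +kernel
theorem chk33 : chk 3 3 = true := by decide +kernel

theorem chkAll : ∀ sa sb : Fin 4, chk sa.val sb.val = true := by
  intro sa sb
  fin_cases sa <;> fin_cases sb
  · exact chk00
  · exact chk01
  · exact chk02
  · exact chk03
  · exact chk10
  · exact chk11
  · exact chk12
  · exact chk13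
  · exact chk20
  · exact chk21
  · exact chk22
  · exact chk23
  · exact chk30
  · exact chk31
  · exact chk32
  · exact chk33


end Pool.Agent.H24.LoopT
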